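import Pool.Agent.Helper92.BO.GoalsA

/-! Packet BO-CAS (for helper92): the complex and the real iterated integrals agree. -/

namespace Pool.Agent.Helper94.BO

open MeasureTheory Pool.Agent.Helper92.BO

theorem psi_eq (l x : ℝ) : psi (l : ℂ) x = ((psiR l x : ℝ) : ℂ) := by
  unfold psi psiR
  split_ifs <;> simp

/-- CAS -/
theorem cas : CasStmt := by
  intro G l L
  induction L with
  | nil =>
    intro b
    simp [ZC, ZR]
  | cons v L ih =>
    intro b
    show (∫ x in (0 : ℝ)..(b v), psi (l : ℂ) x * ZC G (l : ℂ) L (cut G v (1 - x) b)) =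
      ((∫ x in (0 : ℝ)..(b v), psiR l x * ZR G l L (cut G v (1 - x) b) : ℝ) : ℂ)
    rw [← intervalIntegral.integral_ofReal]
    apply intervalIntegral.integral_congr
    intro x _
    show psi (l : ℂ) x * ZC G (l : ℂ) L (cut G v (1 - x) b) =
      ((psiR l x * ZR G l L (cut G v (1 - x) b) : ℝ) : ℂ)
    rw [ih, psi_eq, Complex.ofReal_mul]

end Pool.Agent.Helper94.BO
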