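import Pool.Agent.Helper92.BO.GoalsD

/-! Packet BO-EXB (for helper92): the exponential series. -/

set_option autoImplicit false

namespace Pool.Agent.Helper94.BO

open Pool.Agent.Helper92.BO Finset

theorem pow_fac_le (N q n : ℕ) (hn : 8 * (N + q) ≤ n) :
    (N : ℝ) ^ n / (n.factorial : ℝ) ≤ 1 / 8 ^ (8 * q) := by
  have h1 : ((8 * N : ℕ) : ℝ) ^ n / (n.factorial : ℝ) ≤ Real.exp ((8 * N : ℕ) : ℝ) :=
    Real.pow_div_factorial_le_exp _ (Nat.cast_nonneg _) n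
  have h2 : Real.exp ((8 * N : ℕ) : ℝ) ≤ 8 ^ (8 * N) := by
    have h3 : Real.exp ((8 * N : ℕ) : ℝ) = Real.exp 1 ^ (8 * N) := by
      rw [← Real.exp_nat_mul, mul_one]
    rw [h3]
    apply pow_le_pow_left₀ (Real.exp_pos 1).le
    have := Real.exp_one_lt_d9
    linarith
  have h4 : (8 : ℝ) ^ (8 * N) * 8 ^ (8 * q) ≤ 8 ^ n := by
    rw [← pow_add]
    apply pow_le_pow_right₀ (by norm_num)
    omega
  have h5 : ((8 * N : ℕ) : ℝ) ^ n = 8 ^ n * (N : ℝ) ^ n := by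
    push_cast
    rw [mul_pow]
  rw [h5] at h1
  have hf : (0 : ℝ) < n.factorial := by exact_mod_cast n.factorial_pos
  have h6 : (0 : ℝ) < 8 ^ (8 * q) := by positivity
  have h7 : (0 : ℝ) < 8 ^ (8 * N) := by positivity
  rw [le_div_iff₀ h6]
  have h8 : (0 : ℝ) ≤ (N : ℝ) ^ n / (n.factorial : ℝ) := by positivity
  have h9 : (8 : ℝ) ^ n * ((N : ℝ) ^ n / (n.factorial : ℝ)) ≤ 8 ^ (8 * N) := by
    rw [← mul_div_assoc]
    exact h1.trans h2
  have h10 : (8 : ℝ) ^ (8 * N) * ((N : ℝ) ^ n / (n.factorial : ℝ) * 8 ^ (8 * q)) ≤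
      8 ^ (8 * N) * 1 := by
    calc (8 : ℝ) ^ (8 * N) * ((N : ℝ) ^ n / (n.factorial : ℝ) * 8 ^ (8 * q)) =
        ((8 : ℝ) ^ (8 * N) * 8 ^ (8 * q)) * ((N : ℝ) ^ n / (n.factorial : ℝ)) := by ring
      _ ≤ 8 ^ n * ((N : ℝ) ^ n / (n.factorial : ℝ)) := mul_le_mul_of_nonneg_right h4 h8
      _ ≤ 8 ^ (8 * N) := h9
      _ = 8 ^ (8 * N) * 1 := (mul_one _).symm
  exact le_of_mul_le_mul_left h10 h7

/-- EXB -/
theorem exb : ExbStmt := by
  intro T N q K hN hq hT1 hTN hK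
  have hNr : (1 : ℝ) ≤ N := by exact_mod_cast hN
  have hqr : (1 : ℝ) ≤ q := by exact_mod_cast hq
  have habs : |T| ≤ N := abs_le.2 ⟨by linarith, hTN⟩
  have hb : ‖(T : ℂ)‖ / ((K + 1).succ : ℕ) ≤ 1 / 2 := by
    rw [Complex.norm_real, Real.norm_eq_abs, div_le_iff₀ (by positivity)]
    have h1 : (8 : ℝ) * (N + q) ≤ K := by exact_mod_cast hK
    push_cast
    linarith
  have h1 := Complex.exp_bound' hb
  have h2 : ‖Complex.exp (T : ℂ) - ∑ m ∈ range (K + 1), (T : ℂ) ^ m / (m.factorial : ℂ)‖ =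
      |∑ k ∈ range (K + 1), T ^ k / (k.factorial : ℝ) - Real.exp T| := by
    have e1 : Complex.exp (T : ℂ) - ∑ m ∈ range (K + 1), (T : ℂ) ^ m / (m.factorial : ℂ) =
        ((Real.exp T - ∑ k ∈ range (K + 1), T ^ k / (k.factorial : ℝ) : ℝ) : ℂ) := by
      push_cast
      rfl
    rw [e1, Complex.norm_real, Real.norm_eq_abs, abs_sub_comm]
  rw [h2, Complex.norm_real, Real.norm_eq_abs] at h1
  refine h1.trans ?_
  have h3 : |T| ^ (K + 1) / ((K + 1).factorial : ℝ) ≤ 1 / 8 ^ (8 * q) := by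
    refine le_trans ?_ (pow_fac_le N q (K + 1) (by omega))
    apply div_le_div_of_nonneg_right _ (by positivity)
    exact pow_le_pow_left₀ (abs_nonneg _) habs _
  have h4 : (1 : ℝ) + (8 * q : ℕ) * 7 ≤ 8 ^ (8 * q) := by
    have := one_add_mul_le_pow (show (-2 : ℝ) ≤ 7 by norm_num) (8 * q)
    norm_num at this ⊢
    linarith
  have h5 : (1 : ℝ) / 8 ^ (8 * q) ≤ 1 / (48 * q) := by
    apply one_div_le_one_div_of_le (by positivity)
    push_cast at h4
    linarith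
  have h6 : (1 : ℝ) / 3 ≤ Real.exp T := by
    have h7 : Real.exp (-1) ≤ Real.exp T := Real.exp_le_exp.2 hT1
    refine le_trans ?_ h7
    rw [Real.exp_neg, ← one_div]
    apply one_div_le_one_div_of_le (Real.exp_pos 1)
    have := Real.exp_one_lt_d9
    linarith
  calc |T| ^ (K + 1) / ((K + 1).factorial : ℝ) * 2 ≤ 1 / (48 * q) * 2 := by
        apply mul_le_mul_of_nonneg_right (h3.trans h5) (by norm_num)
    _ = (1 / 3) / (8 * q) := by
        field_simp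
        norm_num
    _ ≤ Real.exp T / (8 * q) := by
        apply div_le_div_of_nonneg_right h6 (by positivity)

end Pool.Agent.Helper94.BO
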