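import Pool.Agent.Helper92.BO.GoalsC

/-! Packet BO-INT (for helper92): the iterated integral is an integral over `Fin L.length → ℝ`. -/

set_option autoImplicit false

namespace Pool.Agent.Helper94.BO

open MeasureTheory Pool.Agent.Helper92.BO Set

/-- the condition -/
def CC (G : SimpleGraph ℕ) {k : ℕ} (g : Fin k → ℕ) (b : ℕ → ℝ) (x : Fin k → ℝ) : Prop :=
  (∀ i, 0 < x i ∧ x i ≤ b (g i)) ∧ (∀ i j, G.Adj (g i) (g j) → x i + x j ≤ 1)

open Classical in
/-- the integrand -/
noncomputable def FF (G : SimpleGraph ℕ) (z : ℂ) {k : ℕ} (g : Fin k → ℕ) (b : ℕ → ℝ)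
    (x : Fin k → ℝ) : ℂ :=
  if CC G g b x then ∏ i, psi z (x i) else 0

theorem CC_cons (G : SimpleGraph ℕ) {k : ℕ} (g : Fin (k + 1) → ℕ) (b : ℕ → ℝ) (x0 : ℝ)
    (x : Fin k → ℝ) : CC G g b (Fin.cons x0 x) ↔
      (0 < x0 ∧ x0 ≤ b (g 0)) ∧ CC G (fun i => g i.succ) (cut G (g 0) (1 - x0) b) x := by
  classical
  unfold CC
  rw [Fin.forall_fin_succ]
  simp only [Fin.forall_fin_succ (P := fun i => ∀ j, G.Adj (g i) (g j) →
    (Fin.cons x0 x : Fin (k + 1) → ℝ) i + (Fin.cons x0 x : Fin (k + 1) → ℝ) j ≤ 1),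
    Fin.forall_fin_succ (n := k), Fin.cons_zero, Fin.cons_succ]
  constructor
  · rintro ⟨⟨h1, h2⟩, ⟨-, h4⟩, h5⟩
    refine ⟨h1, ?_, fun i j => (h5 i).2 j⟩
    intro i
    refine ⟨(h2 i).1, ?_⟩
    unfold cut
    split_ifs with h
    · exact le_min (h2 i).2 (by linarith [h4 i h])
    · exact (h2 i).2
  · rintro ⟨h1, h2, h3⟩
    have h6 : ∀ i : Fin k, x i ≤ b (g i.succ) ∧ (G.Adj (g 0) (g i.succ) → x0 + x i ≤ 1) := by
      intro i
      have := (h2 i).2
      unfold cut at this
      split_ifs at this with h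
      · exact ⟨this.trans (min_le_left _ _), fun _ => by
          linarith [this.trans (min_le_right _ _)]⟩
      · exact ⟨this, fun h' => absurd h' h⟩
    refine ⟨⟨h1, fun i => ⟨(h2 i).1, (h6 i).1⟩⟩,
      ⟨fun h => absurd h (G.loopless.irrefl _), fun i h => (h6 i).2 h⟩, fun i => ⟨fun h => ?_, fun j => h3 i j⟩⟩
    have := (h6 i).2 h.symm
    linarith

theorem FF_cons (G : SimpleGraph ℕ) (z : ℂ) {k : ℕ} (g : Fin (k + 1) → ℕ) (b : ℕ → ℝ) (x0 : ℝ)
    (x : Fin k → ℝ) : FF G z g b (Fin.cons x0 x) =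
      (Ioc 0 (b (g 0))).indicator (fun x0 => psi z x0 *
        FF G z (fun i => g i.succ) (cut G (g 0) (1 - x0) b) x) x0 := by
  classical
  unfold FF
  by_cases h : x0 ∈ Ioc 0 (b (g 0))
  · rw [indicator_of_mem h]
    by_cases h2 : CC G (fun i => g i.succ) (cut G (g 0) (1 - x0) b) x
    · rw [if_pos ((CC_cons G g b x0 x).2 ⟨h, h2⟩), if_pos h2, Fin.prod_univ_succ]
      simp only [Fin.cons_zero, Fin.cons_succ]
    · rw [if_neg (fun h3 => h2 ((CC_cons G g b x0 x).1 h3).2), if_neg h2, mul_zero]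
  · rw [indicator_of_notMem h, if_neg (fun h3 => h ((CC_cons G g b x0 x).1 h3).1)]

theorem measurable_psi (z : ℂ) : Measurable (psi z) := by
  unfold psi
  exact Measurable.ite measurableSet_Iic measurable_const measurable_const

theorem measurableSet_CC (G : SimpleGraph ℕ) {k : ℕ} (g : Fin k → ℕ) (b : ℕ → ℝ) :
    MeasurableSet {x : Fin k → ℝ | CC G g b x} := by
  have e : {x : Fin k → ℝ | CC G g b x} = (⋂ i, ({x | 0 < x i} ∩ {x | x i ≤ b (g i)})) ∩
      ⋂ i, ⋂ j, {x : Fin k → ℝ | G.Adj (g i) (g j) → x i + x j ≤ 1} := by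
    ext x
    simp only [mem_setOf_eq, mem_inter_iff, mem_iInter, CC]
  rw [e]
  apply MeasurableSet.inter
  · apply MeasurableSet.iInter
    intro i
    exact (measurableSet_lt measurable_const (measurable_pi_apply i)).inter
      (measurableSet_le (measurable_pi_apply i) measurable_const)
  · apply MeasurableSet.iInter
    intro i
    apply MeasurableSet.iInter
    intro j
    by_cases h : G.Adj (g i) (g j)
    · simp only [h, forall_const]
      exact measurableSet_le ((measurable_pi_apply i).add (measurable_pi_apply j)) measurable_const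
    · simp only [h, false_imp_iff, setOf_true]
      exact MeasurableSet.univ

theorem norm_psi_le (z : ℂ) (x : ℝ) : ‖psi z x‖ ≤ max 1 ‖z‖ := by
  unfold psi
  split_ifs
  · rw [norm_one]; exact le_max_left _ _
  · exact le_max_right _ _

theorem integrable_FF (G : SimpleGraph ℕ) (z : ℂ) {k : ℕ} (g : Fin k → ℕ) (b : ℕ → ℝ)
    (hb : ∀ i, b (g i) ≤ 1) : Integrable (FF G z g b) := by
  classical
  have e : FF G z g b = {x : Fin k → ℝ | CC G g b x}.indicator (fun x => ∏ i, psi z (x i)) := by
    funext x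
    unfold FF
    by_cases h : CC G g b x
    · rw [if_pos h, indicator_of_mem (s := {x : Fin k → ℝ | CC G g b x}) h]
    · rw [if_neg h, indicator_of_notMem (s := {x : Fin k → ℝ | CC G g b x}) h]
  rw [e, integrable_indicator_iff (measurableSet_CC G g b)]
  have hsub : {x : Fin k → ℝ | CC G g b x} ⊆ Icc 0 1 := by
    intro x hx
    exact ⟨fun i => (hx.1 i).1.le, fun i => (hx.1 i).2.trans (hb i)⟩
  have hfin : volume {x : Fin k → ℝ | CC G g b x} < ⊤ :=
    (measure_mono hsub).trans_lt isCompact_Icc.measure_lt_top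
  apply IntegrableOn.of_bound hfin (C := (max 1 ‖z‖) ^ k)
  · apply Measurable.aestronglyMeasurable
    exact Finset.measurable_prod _ (fun i _ => (measurable_psi z).comp (measurable_pi_apply i))
  · refine Filter.Eventually.of_forall (fun x => ?_)
    rw [norm_prod]
    calc ∏ i, ‖psi z (x i)‖ ≤ ∏ _i : Fin k, max 1 ‖z‖ :=
          Finset.prod_le_prod (fun i _ => norm_nonneg _) (fun i _ => norm_psi_le z _)
      _ = (max 1 ‖z‖) ^ k := by rw [Finset.prod_const, Finset.card_univ, Fintype.card_fin]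

theorem int_succ (G : SimpleGraph ℕ) (z : ℂ) {k : ℕ} (g : Fin (k + 1) → ℕ) (b : ℕ → ℝ)
    (hb : ∀ i, b (g i) ≤ 1) :
    ∫ x, FF G z g b x = ∫ x0, (Ioc 0 (b (g 0))).indicator (fun x0 => psi z x0 *
      ∫ x, FF G z (fun i => g i.succ) (cut G (g 0) (1 - x0) b) x) x0 := by
  set e : ℝ × (Fin k → ℝ) ≃ᵐ (Fin (k + 1) → ℝ) :=
    (MeasurableEquiv.piFinSuccAbove (fun _ => ℝ) 0).symm with he
  have hem : MeasurePreserving e :=
    (volume_preserving_piFinSuccAbove (fun _ : Fin (k + 1) => ℝ) 0).symm _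
  have hint : Integrable (fun p : ℝ × (Fin k → ℝ) => FF G z g b (e p)) (volume.prod volume) :=
    (hem.integrable_comp_emb e.measurableEmbedding).2 (integrable_FF G z g b hb)
  have hcons : ∀ (x0 : ℝ) (x : Fin k → ℝ), e (x0, x) = Fin.cons x0 x := by
    intro x0 x
    rw [he]
    simp [MeasurableEquiv.piFinSuccAbove_symm_apply, Fin.insertNthEquiv]
  calc ∫ x, FF G z g b x = ∫ p, FF G z g b (e p) := (hem.integral_comp' (g := FF G z g b)).symm
    _ = ∫ x0, ∫ x, FF G z g b (e (x0, x)) := integral_prod _ hint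
    _ = _ := by
      apply integral_congr_ae
      refine Filter.Eventually.of_forall (fun x0 => ?_)
      simp only [hcons, FF_cons]
      by_cases h : x0 ∈ Ioc 0 (b (g 0))
      · simp only [indicator_of_mem h]
        rw [integral_const_mul]
      · simp only [indicator_of_notMem h]
        exact integral_zero _ _

theorem main (G : SimpleGraph ℕ) (z : ℂ) : ∀ (L : List ℕ) (b : ℕ → ℝ), In01 L b →
    ZC G z L b = ∫ x, FF G z L.get b x := by
  classical
  intro L
  induction L with
  | nil =>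
    intro b _
    have e : FF G z ([] : List ℕ).get b = fun _ => 1 := by
      funext x
      unfold FF
      rw [if_pos]
      · simp
      · exact ⟨fun i => i.elim0, fun i => i.elim0⟩
    rw [e]
    simp only [ZC]
    have h0 : (volume : Measure (Fin 0 → ℝ)) = Measure.dirac isEmptyElim :=
      Measure.volume_pi_eq_dirac
    show (1 : ℂ) = ∫ _x : Fin 0 → ℝ, (1 : ℂ)
    rw [h0]
    simp
  | cons v L ih =>
    intro b hb
    have hbv := hb v (List.mem_cons_self)
    have h1 := int_succ G z (v :: L).get b (fun i => (hb _ (List.get_mem _ _)).2)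
    refine Eq.trans ?_ h1.symm
    show (∫ x in (0 : ℝ)..(b v), psi z x * ZC G z L (cut G v (1 - x) b)) = _
    rw [intervalIntegral.integral_of_le hbv.1, ← integral_indicator measurableSet_Ioc]
    apply integral_congr_ae
    refine Filter.Eventually.of_forall (fun x0 => ?_)
    show (Ioc 0 (b v)).indicator (fun x => psi z x * ZC G z L (cut G v (1 - x) b)) x0 =
      (Ioc 0 (b v)).indicator (fun x0 => psi z x0 *
        ∫ x, FF G z (fun i => (v :: L).get i.succ) (cut G v (1 - x0) b) x) x0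
    by_cases h : x0 ∈ Ioc 0 (b v)
    · rw [indicator_of_mem h, indicator_of_mem h]
      have h2 := ih (cut G v (1 - x0) b) (by
        intro u hu
        have hbu := hb u (List.mem_cons_of_mem _ hu)
        unfold cut
        split_ifs
        · exact ⟨le_min hbu.1 (by linarith [h.2, hbv.2]), (min_le_left _ _).trans hbu.2⟩
        · exact hbu)
      rw [h2]
      rfl
    · rw [indicator_of_notMem h, indicator_of_notMem h]

/-- INT -/
theorem int : IntStmt := by
  intro G z L b hb
  rw [main G z L b hb]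
  congr 1
  funext x
  unfold FF CC
  split_ifs <;> rfl

end Pool.Agent.Helper94.BO
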