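import Pool.Agent.Helper92.BO.GoalsP

/-!
# Project BO (MP_481f43_lc), packet PTU: the graph of a pair system is computed in polynomial time
-/

set_option autoImplicit false

namespace Pool.Agent.Helper94.BO

open Pool.Agent.Helper81.CC Pool.Agent.Bin Pool.Agent.Helper92.VP Pool.Agent.Helper92.FR
  Pool.Agent.Helper92.BO

variable {α : Type} [ToData α]

@[fun_prop] theorem pt_nzB {x : α → RQ} (hx : PolyTime x) : PolyTime (fun a => nzB (x a)) := by
  unfold nzB
  fun_prop

@[fun_prop] theorem pt_nzs {n : α → ℕ} {r : α → List RQ × RQ} (hn : PolyTime n)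
    (hr : PolyTime r) : PolyTime (fun a => nzs (n a) (r a)) := by
  unfold nzs
  fun_prop

theorem ptu : PtuStmt := by
  unfold PtuStmt edgesT
  fun_prop

end Pool.Agent.Helper94.BO
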