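import Pool.Agent.Helper92.BO.GoalsG

/-!
# Project BO (MP_481f43_lc), packet ZRM: measurability in the bounds
-/

set_option autoImplicit false

namespace Pool.Agent.Helper94.BO

open MeasureTheory Filter Topology Function
open Pool.Agent.Helper92.BO

lemma meas_integral {f : (ℕ → ℝ) → ℝ → ℝ} (hf : Measurable (uncurry f)) (v : ℕ) :
    Measurable fun b : ℕ → ℝ => ∫ x in (0 : ℝ)..(b v), f b x := by
  have hv : Measurable fun p : (ℕ → ℝ) × ℝ => p.1 v := (measurable_pi_apply v).comp measurable_fst
  have s1 : MeasurableSet {p : (ℕ → ℝ) × ℝ | 0 < p.2 ∧ p.2 ≤ p.1 v} :=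
    (measurableSet_lt measurable_const measurable_snd).inter
      (measurableSet_le measurable_snd hv)
  have s2 : MeasurableSet {p : (ℕ → ℝ) × ℝ | p.1 v < p.2 ∧ p.2 ≤ 0} :=
    (measurableSet_lt hv measurable_snd).inter
      (measurableSet_le measurable_snd measurable_const)
  have m1 : StronglyMeasurable (uncurry fun (b : ℕ → ℝ) (x : ℝ) =>
      (Set.Ioc (0 : ℝ) (b v)).indicator (f b) x) := by
    have h : (uncurry fun (b : ℕ → ℝ) (x : ℝ) => (Set.Ioc (0 : ℝ) (b v)).indicator (f b) x) =
        Set.indicator {p : (ℕ → ℝ) × ℝ | 0 < p.2 ∧ p.2 ≤ p.1 v} (uncurry f) := by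
      funext p
      obtain ⟨b, x⟩ := p
      rfl
    rw [h]
    exact (hf.indicator s1).stronglyMeasurable
  have m2 : StronglyMeasurable (uncurry fun (b : ℕ → ℝ) (x : ℝ) =>
      (Set.Ioc (b v) (0 : ℝ)).indicator (f b) x) := by
    have h : (uncurry fun (b : ℕ → ℝ) (x : ℝ) => (Set.Ioc (b v) (0 : ℝ)).indicator (f b) x) =
        Set.indicator {p : (ℕ → ℝ) × ℝ | p.1 v < p.2 ∧ p.2 ≤ 0} (uncurry f) := by
      funext p
      obtain ⟨b, x⟩ := p
      rfl
    rw [h]
    exact (hf.indicator s2).stronglyMeasurable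
  have h1 := (m1.integral_prod_right (ν := volume)).measurable
  have h2 := (m2.integral_prod_right (ν := volume)).measurable
  have h3 : (fun b : ℕ → ℝ => ∫ x in (0 : ℝ)..(b v), f b x) = fun b : ℕ → ℝ =>
      (∫ x, (Set.Ioc (0 : ℝ) (b v)).indicator (f b) x) -
        ∫ x, (Set.Ioc (b v) (0 : ℝ)).indicator (f b) x := by
    funext b
    rw [intervalIntegral, integral_indicator measurableSet_Ioc,
      integral_indicator measurableSet_Ioc]
  rw [h3]
  exact h1.sub h2

lemma meas_psiR (l : ℝ) : Measurable (psiR l) := by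
  unfold psiR
  exact Measurable.ite measurableSet_Iic measurable_const measurable_const

lemma meas_cut (G : SimpleGraph ℕ) (v : ℕ) :
    Measurable fun p : (ℕ → ℝ) × ℝ => cut G v (1 - p.2) p.1 := by
  classical
  rw [measurable_pi_iff]
  intro u
  have hu : Measurable fun p : (ℕ → ℝ) × ℝ => p.1 u := (measurable_pi_apply u).comp measurable_fst
  unfold cut
  by_cases h : G.Adj v u
  · simp only [h, if_true]
    exact hu.min (measurable_const.sub measurable_snd)
  · simp only [h, if_false]
    exact hu

theorem zrm : ZrmStmt := by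
  intro G l L
  induction L with
  | nil =>
    show Measurable fun _ : ℕ → ℝ => (1 : ℝ)
    exact measurable_const
  | cons v L ih =>
    apply meas_integral (f := fun b x => psiR l x * ZR G l L (cut G v (1 - x) b))
    apply Measurable.mul
    · exact (meas_psiR l).comp measurable_snd
    · exact ih.comp (meas_cut G v)

end Pool.Agent.Helper94.BO
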